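import Mathlib
import Pool.Agent.L7h51.BE.Cay

set_option autoImplicit false
set_option linter.unusedSectionVars false
set_option maxHeartbeats 4000000

/-!
# Small-set expansion in Cayley graphs of abelian groups, generators of bounded order

Let `Γ` be the Cayley graph of a finite abelian group `G` with connection set `S` whose elements
have orders dividing `r`. If a set of density `δ` has expansion at most `η` then some intersection
of `⌈log₂ (1 / (2 δ))⌉` kernels of characters of `G` has density at most `2 δ` and retains about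
the fraction `(1 - c_r η)^{log₂ (1 / δ)}` of its degree, `c_r = 1 / (1 - cos (2 π / r))`. If this
is larger than `3 η`, the polynomially many (`|G|^n`) subgroups of this kind decide
`SSE(η, δ)` on these graphs.
-/

namespace Pool.Agent.Results.MP_8d8c46_lc.GeneratorsOfBoundedOrder

open Finset Pool.Agent.L7h51.BE
open scoped Classical

noncomputable section

/-- The retention: `∏_{j=1}^n max (0, 1 - c_r η / (1 - 2^{-j}))`, `c_r = 1 / (1 - cos (2π/r))`. -/
def retention (r n : ℕ) (eta : ℝ) : ℝ :=
  ∏ j ∈ Finset.Icc 1 n, max 0 (1 - eta / (1 - Real.cos (2 * Real.pi / r)) / (1 - (1 / 2) ^ j))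

lemma retention_eq (r n : ℕ) (eta : ℝ) :
    retention r n eta = Psi n (eta / (1 - Real.cos (2 * Real.pi / r))) := by
  unfold retention Psi fac
  rw [← Finset.Ico_add_one_right_eq_Icc, Finset.prod_Ico_eq_prod_range]
  simp only [Nat.add_sub_cancel]
  refine Finset.prod_congr rfl fun j _ => ?_
  rw [add_comm 1 j]

end

/-- **Result.** Let `G` be a finite abelian group, `S = -S` a nonempty subset with `0 ∉ S` and
`r s = 0` for all `s ∈ S`, `r ≥ 2`, and `Γ` the Cayley graph of `G` with connection set `S`;
`kerAll χ` is the intersection of the kernels of the characters `χ i`.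

(1) If `Φ(A) ≤ η` for a nonempty set `A` and `|G| ≤ 2^{n+1} |A|`, then there are `n` characters
`χ i` of `G` such that `W = kerAll χ` satisfies `|W| ≤ 2 |A|` and
`1 - Φ(W) = |S ∩ W| / |S| ≥ ∏_{j=1}^n max (0, 1 - c η / (1 - 2^{-j}))`, where
`c = 1 / (1 - cos (2 π / r))`; this product is at least `(1 - 2 c η) (1 - c η)^n` if
`0 ≤ c η ≤ 1/3`.

(2) Let `2 ≤ δ |G| ≤ |G|`, `1 ≤ 2^{n+1} δ` and let the product be larger than `3 η`. If `Γ` is a
yes instance of `SSE(η, δ)`, then some `W = kerAll χ` (`n` characters) satisfies `|W| ≤ 2 δ |G|` and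
`|S ∩ W| > 3 η |S|`. If `Γ` is a no instance of `SSE(η, δ)` (and `δ |G|` is an integer), then no
subgroup `W` satisfies this. So the `|G|^n` families of `n` characters decide. -/
theorem result (G : Type) [AddCommGroup G] [Fintype G] (S : Finset G) (hS : ∀ s ∈ S, -s ∈ S)
    (h0 : (0 : G) ∉ S) (hne : S.Nonempty) (r : ℕ) (hr : 2 ≤ r) (hrS : ∀ s ∈ S, r • s = 0) :
    (∀ (A : Finset G) (eta : ℝ) (n : ℕ), A.Nonempty → expansion (cay S hS h0) S.card A ≤ eta →
      (Fintype.card G : ℝ) ≤ 2 ^ (n + 1) * A.card →
      ∃ χ : Fin n → AddChar G ℂ, (Nat.card (kerAll χ) : ℝ) ≤ 2 * A.card ∧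
        expansion (cay S hS h0) S.card (univ.filter fun x => x ∈ kerAll χ) =
          1 - ((S.filter fun s => s ∈ kerAll χ).card : ℝ) / S.card ∧
        retention r n eta ≤ ((S.filter fun s => s ∈ kerAll χ).card : ℝ) / S.card) ∧
    (∀ (n : ℕ) (eta : ℝ), 0 ≤ eta / (1 - Real.cos (2 * Real.pi / r)) →
      eta / (1 - Real.cos (2 * Real.pi / r)) ≤ 1 / 3 →
      (1 - 2 * (eta / (1 - Real.cos (2 * Real.pi / r)))) *
        (1 - eta / (1 - Real.cos (2 * Real.pi / r))) ^ n ≤ retention r n eta) ∧
    (∀ (eta del : ℝ) (n t : ℕ), (t : ℝ) = del * Fintype.card G → 2 ≤ t → t ≤ Fintype.card G →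
      1 ≤ 2 ^ (n + 1) * del → 3 * eta < retention r n eta →
      (SseYes (cay S hS h0) S.card eta del →
        ∃ χ : Fin n → AddChar G ℂ, Nat.card (kerAll χ) ≤ 2 * t ∧
          3 * eta * S.card < ((S.filter fun s => s ∈ kerAll χ).card : ℝ)) ∧
      (SseNo (cay S hS h0) S.card eta del →
        ¬ ∃ W : AddSubgroup G, Nat.card W ≤ 2 * t ∧
          3 * eta * S.card < ((S.filter fun s => s ∈ W).card : ℝ))) ∧
    (∀ n : ℕ, Nat.card (Fin n → AddChar G ℂ) = Fintype.card G ^ n) := by
  have hSc : (0 : ℝ) < S.card := by exact_mod_cast hne.card_pos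
  refine ⟨?_, ?_, ?_, ?_⟩
  · intro A eta n hA hexp hn
    obtain ⟨χ, h1, h2⟩ := subgroup_of_set S hS h0 hne r hr hrS A hA eta hexp n hn
    refine ⟨χ, h1, ?_, by rw [retention_eq]; exact h2⟩
    have hWne : (univ.filter fun x => x ∈ kerAll χ).Nonempty :=
      ⟨0, by simp [(kerAll χ).zero_mem]⟩
    have hW0 : (0 : ℝ) < (univ.filter fun x => x ∈ kerAll χ).card := by
      exact_mod_cast hWne.card_pos
    rw [expansion_gen S hS h0 hne _ hWne]
    have h3 : ∀ s : G, (((univ.filter fun x => x ∈ kerAll χ).filter fun x => x + s ∉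
        univ.filter fun x => x ∈ kerAll χ).card : ℝ) / (univ.filter fun x => x ∈ kerAll χ).card =
        if s ∈ kerAll χ then 0 else 1 := by
      intro s
      by_cases hs : s ∈ kerAll χ
      · rw [if_pos hs, div_eq_zero_iff]
        left
        rw [Nat.cast_eq_zero, Finset.card_eq_zero, Finset.filter_eq_empty_iff]
        intro x hx
        simp only [Finset.mem_filter, Finset.mem_univ, true_and, not_not] at hx ⊢
        exact (kerAll χ).add_mem hx hs
      · rw [if_neg hs, div_eq_one_iff_eq hW0.ne']
        congr 2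
        rw [Finset.filter_eq_self]
        intro x hx
        simp only [Finset.mem_filter, Finset.mem_univ, true_and] at hx ⊢
        intro hc
        apply hs
        have := (kerAll χ).sub_mem hc hx
        rwa [add_sub_cancel_left] at this
    rw [Finset.sum_congr rfl fun s _ => by rw [h3 s]]
    have h4 : ∑ s : G, (if s ∈ S then 1 / (S.card : ℝ) else 0) * (if s ∈ kerAll χ then (0 : ℝ) else 1)
        = ∑ s ∈ S, (1 / (S.card : ℝ) - (if s ∈ kerAll χ then 1 / (S.card : ℝ) else 0)) := by
      rw [← Finset.sum_subset (Finset.subset_univ S)]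
      · refine Finset.sum_congr rfl fun s hs => ?_
        rw [if_pos hs]
        split_ifs <;> ring
      · intro s _ hs
        rw [if_neg hs, zero_mul]
    rw [h4, Finset.sum_sub_distrib, Finset.sum_const, nsmul_eq_mul, ← Finset.sum_filter,
      Finset.sum_const, nsmul_eq_mul]
    field_simp
  · intro n eta h1 h2
    rw [retention_eq]
    exact Psi_lower n _ h1 h2
  · intro eta del n t ht ht2 htG hn hbig
    have hG0 : (0 : ℝ) < Fintype.card G := by exact_mod_cast Fintype.card_pos
    constructor
    · rintro ⟨A, hA, hAc, hle⟩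
      have hAt : (A.card : ℝ) = t := by rw [hAc, ht]
      obtain ⟨χ, h1, h2⟩ := subgroup_of_set S hS h0 hne r hr hrS A hA eta hle n (by
        rw [hAc, ← mul_assoc]
        have := mul_le_mul_of_nonneg_right hn hG0.le
        linarith)
      refine ⟨χ, ?_, ?_⟩
      · rw [hAt] at h1
        exact_mod_cast h1
      · rw [← retention_eq] at h2
        rw [← lt_div_iff₀ hSc]
        linarith
    · rintro hno ⟨W, hW, hlt⟩
      have h1 := no_subgroup S hS h0 hne eta del hno t ht2 ht htG W hW
      rw [← lt_div_iff₀ hSc] at hlt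
      linarith
  · intro n
    rw [Nat.card_eq_fintype_card, Fintype.card_fun, Fintype.card_fin, AddChar.card_eq]

end Pool.Agent.Results.MP_8d8c46_lc.GeneratorsOfBoundedOrder
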