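import Mathlib
import Pool.Agent.L7h51.SSE.Final

set_option autoImplicit false
set_option linter.unusedSectionVars false
set_option maxHeartbeats 4000000

/-!
# Subgroups are optimal for small-set expansion in Cayley graphs of groups of exponent 4

Let `𝓕` be a lattice of pairwise permuting subgroups of a finite group `G` (all normal subgroups,
say) and let `μ` be a weight on `G` which off the identity is a nonnegative combination of uniform
distributions on members of `𝓕` and of uniform distributions on the sets of the generators of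
cyclic members of `𝓕` of prime power order. Then among all nonempty subsets `A` of `G` the minimum
of `Φ_μ(A) - λ log (|G| / |A|)` is attained at a member of `𝓕`, for every `λ ≥ 0`. For the groups
all of whose subgroups are normal, this holds for all symmetric weights if and only if all elements
have order at most 4.
-/

namespace Pool.Agent.Results.MP_8d8c46_lc.PermutingSubgroups

open Finset Pool.Agent.L7h51.SSE
open scoped Classical

noncomputable section

/-- The Cayley graph of `G` with connection set `S`. -/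
def cay {G : Type} [Group G] (S : Finset G) (hS : ∀ s ∈ S, s⁻¹ ∈ S) (h1 : (1 : G) ∉ S) :
    SimpleGraph G where
  Adj x y := x⁻¹ * y ∈ S
  symm := ⟨fun x y h => by
    have := hS _ h
    rwa [mul_inv_rev, inv_inv] at this⟩
  loopless := ⟨fun x h => h1 (by simpa using h)⟩

/-- The number of edges of `Γ` with exactly one endpoint in `A`, counted as ordered pairs
`(x,y)` with `x ∈ A`, `y ∉ A`. -/
def cut {V : Type} [Fintype V] (Γ : SimpleGraph V) (A : Finset V) : ℕ :=
  (univ.filter fun p : V × V => p.1 ∈ A ∧ p.2 ∉ A ∧ Γ.Adj p.1 p.2).card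

/-- The expansion `|E(A, V∖A)|/(d|A|)` in a `d`-regular graph. -/
def expansion {V : Type} [Fintype V] (Γ : SimpleGraph V) (d : ℕ) (A : Finset V) : ℝ :=
  (cut Γ A : ℝ) / (d * A.card)

/-- Yes instances of `SSE(η,δ)` for the `d`-regular graph `Γ`. -/
def SseYes {V : Type} [Fintype V] (Γ : SimpleGraph V) (d : ℕ) (eta del : ℝ) : Prop :=
  ∃ A : Finset V, A.Nonempty ∧ (A.card : ℝ) = del * Fintype.card V ∧ expansion Γ d A ≤ eta

/-- The uniform distribution on `S`. -/
def unif {G : Type} (S : Finset G) : G → ℝ := fun s => if s ∈ S then 1 / (S.card : ℝ) else 0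

lemma cut_cay {G : Type} [Group G] [Fintype G] (S : Finset G) (hS : ∀ s ∈ S, s⁻¹ ∈ S)
    (h1 : (1 : G) ∉ S) (A : Finset G) :
    (cut (cay S hS h1) A : ℝ)
      = ∑ s, (if s ∈ S then (1 : ℝ) else 0) * ((A.filter fun x => x * s ∉ A).card : ℝ) := by
  unfold cut
  have h1 : ∀ s, (if s ∈ S then (1 : ℝ) else 0) * ((A.filter fun x => x * s ∉ A).card : ℝ)
      = ∑ x, if x ∈ A ∧ x * s ∉ A ∧ s ∈ S then (1 : ℝ) else 0 := by
    intro s
    rw [Finset.card_filter]
    push_cast
    rw [Finset.mul_sum]
    rw [← Finset.sum_subset (Finset.subset_univ A)]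
    · refine Finset.sum_congr rfl fun x hx => ?_
      by_cases h1 : s ∈ S <;> by_cases h2 : x * s ∈ A <;> simp [h1, h2, hx]
    · intro x _ hx
      simp [hx]
  simp_rw [h1]
  rw [Finset.sum_comm, Finset.card_filter]
  push_cast
  rw [← Finset.univ_product_univ, Finset.sum_product]
  refine Finset.sum_congr rfl fun x _ => ?_
  symm
  refine Fintype.sum_equiv (Equiv.mulLeft x) _ _ fun s => ?_
  simp only [Equiv.coe_mulLeft, cay, inv_mul_cancel_left]

lemma expansion_eq {G : Type} [Group G] [Fintype G] (S : Finset G) (hS : ∀ s ∈ S, s⁻¹ ∈ S)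
    (h1 : (1 : G) ∉ S) (A : Finset G) :
    expansion (cay S hS h1) S.card A = wexp (unif S) A := by
  unfold expansion wexp
  rw [cut_cay, ← div_div, Finset.sum_div]
  congr 1
  refine Finset.sum_congr rfl fun s _ => ?_
  simp only [unif]
  by_cases h : s ∈ S <;> simp [h]
  ring

lemma expansion_carrier {G : Type} [Group G] [Fintype G] (S : Finset G) (hS : ∀ s ∈ S, s⁻¹ ∈ S)
    (h1 : (1 : G) ∉ S) (W : Subgroup G) :
    expansion (cay S hS h1) S.card (carrier W) =
      ((S.filter fun s => s ∉ W).card : ℝ) / S.card := by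
  rw [expansion_eq, wexp_carrier_eq, Finset.card_filter, div_eq_mul_one_div]
  push_cast
  rw [Finset.sum_mul, Finset.sum_filter, ← Finset.sum_subset (Finset.subset_univ S)]
  · refine Finset.sum_congr rfl fun s hs => ?_
    unfold unif
    by_cases h : s ∈ W <;> simp [h, hs]
  · intro s _ hs
    simp [unif, hs]

lemma sse {G : Type} [Group G] [Fintype G] {𝓕 : Set (Subgroup G)} (h𝓕 : PermLattice 𝓕)
    (S : Finset G) (hS : ∀ s ∈ S, s⁻¹ ∈ S) (h1 : (1 : G) ∉ S) (hadm : Admissible 𝓕 (unif S))
    (eta del : ℝ) (hdel : 0 < del) (hdel1 : del < 1) (hyes : SseYes (cay S hS h1) S.card eta del) :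
    ∃ W ∈ 𝓕, W ≠ ⊤ ∧ expansion (cay S hS h1) S.card (carrier W) ≤
      eta * (Real.log W.index / Real.log (1 / del)) := by
  obtain ⟨A, hA, hAc, hle⟩ := hyes
  have hGc : (0 : ℝ) < Fintype.card G := by exact_mod_cast Fintype.card_pos
  have hAu : A ≠ univ := by
    rintro rfl
    rw [Finset.card_univ] at hAc
    nlinarith
  have hG : Nontrivial G := by
    by_contra hcon
    rw [not_nontrivial_iff_subsingleton] at hcon
    apply hAu
    obtain ⟨a, ha⟩ := hA
    ext x
    simp [Subsingleton.elim x a, ha]
  obtain ⟨W, hW, hWt, hmin⟩ := part3 h𝓕 hadm hG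
  refine ⟨W, hW, hWt, ?_⟩
  rw [expansion_eq] at hle ⊢
  have h := hmin A hA hAu
  have hls : lsize A = Real.log (1 / del) := by
    unfold lsize
    rw [hAc]
    congr 1
    field_simp
  have hlpos : 0 < Real.log (1 / del) := by
    rw [← hls]; exact lsize_pos A hA hAu
  have hWpos : 0 < lsize (carrier W) := lsize_pos _ (carrier_nonempty W) (carrier_ne_univ hWt)
  rw [hls, div_le_iff₀ hWpos, lsize_carrier] at h
  rw [lsize_carrier] at hWpos
  refine h.trans ?_
  rw [div_mul_eq_mul_div, mul_div_assoc]
  exact mul_le_mul_of_nonneg_right hle (by positivity)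

end

/-- **Result.** For a weight `μ` on a finite group `G` and a nonempty `A ⊆ G` let
`wexp μ A = (∑_s μ(s) |{x ∈ A : x s ∉ A}|) / |A|` and `lsize A = log (|G| / |A|)`.

(1) Let `𝓕` be a lattice of pairwise permuting subgroups of `G` and `μ` a weight which off the
identity is a nonnegative combination of uniform distributions on members of `𝓕` and of uniform
distributions on the sets of the generators of cyclic members of `𝓕` of prime power order. Then
for every `λ ≥ 0` the minimum of `wexp μ A - λ lsize A` over all nonempty sets `A` is attained at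
a member of `𝓕`; for every real `c`, the inequality `c lsize A ≤ wexp μ A` holds for all nonempty
`A` if it holds for the members of `𝓕`; and the minimum of `wexp μ A / lsize A` over all nonempty
`A ≠ G` is attained at a member of `𝓕` if `G ≠ 1`.

(2) The normal subgroups of a finite group are such a lattice `𝓕`. If all subgroups of `G` are
normal, every weight that is nonnegative, constant on the set of the generators of each cyclic
subgroup and supported on elements of prime power order is as in (1).

(3) Let all subgroups of `G` be normal (`G` abelian, for example). The minimum of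
`wexp μ A - λ lsize A` over all nonempty sets `A` is attained at a subgroup for all symmetric
weights `μ ≥ 0` and all `λ ≥ 0` if and only if all elements of `G` have order at most 4.

(4) Let `Γ` be the Cayley graph of `G` with the symmetric connection set `S ∌ 1`, and let the
uniform distribution on `S` be a weight as in (1). If `Γ` is a yes instance of `SSE(η, δ)`,
`0 < δ < 1`, then some `W ∈ 𝓕`, `W ≠ G`, has expansion at most `η log [G : W] / log (1 / δ)`.

(5) This applies to all Cayley graphs of finite groups all of whose subgroups are normal and all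
of whose elements have order at most 4; here the expansion of `W` is `|S ∖ W| / |S|`. -/
theorem result :
    (∀ (G : Type) [Group G] [Fintype G] (𝓕 : Set (Subgroup G)) (μ : G → ℝ),
      PermLattice 𝓕 → Admissible 𝓕 μ →
      (∀ W : Subgroup G, wexp μ (carrier W) = ∑ s ∈ univ.filter (fun s => s ∉ W), μ s) ∧
      (∀ W : Subgroup G, lsize (carrier W) = Real.log W.index) ∧
      (∀ lam : ℝ, 0 ≤ lam → ∃ W ∈ 𝓕, ∀ A : Finset G, A.Nonempty →
        wexp μ (carrier W) - lam * lsize (carrier W) ≤ wexp μ A - lam * lsize A) ∧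
      (∀ c : ℝ, (∀ A : Finset G, A.Nonempty → c * lsize A ≤ wexp μ A) ↔
        ∀ W ∈ 𝓕, c * lsize (carrier W) ≤ wexp μ (carrier W)) ∧
      (Nontrivial G → ∃ W ∈ 𝓕, W ≠ ⊤ ∧ ∀ A : Finset G, A.Nonempty → A ≠ univ →
        wexp μ (carrier W) / lsize (carrier W) ≤ wexp μ A / lsize A)) ∧
    (∀ (G : Type) [Group G] [Fintype G],
      PermLattice {N : Subgroup G | N.Normal} ∧
      ((∀ N : Subgroup G, N.Normal) → ∀ μ : G → ℝ, (∀ s, 0 ≤ μ s) →
        (∀ s t : G, Subgroup.zpowers s = Subgroup.zpowers t → μ s = μ t) →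
        (∀ s : G, s ≠ 1 → μ s ≠ 0 → IsPrimePow (orderOf s)) →
        Admissible {N : Subgroup G | N.Normal} μ)) ∧
    (∀ (G : Type) [Group G] [Fintype G], (∀ N : Subgroup G, N.Normal) →
      ((∀ μ : G → ℝ, (∀ s, 0 ≤ μ s) → (∀ s, μ s⁻¹ = μ s) → ∀ lam : ℝ, 0 ≤ lam →
        ∃ W : Subgroup G, ∀ A : Finset G, A.Nonempty →
          wexp μ (carrier W) - lam * lsize (carrier W) ≤ wexp μ A - lam * lsize A) ↔
      ∀ g : G, orderOf g ≤ 4)) ∧
    (∀ (G : Type) [Group G] [Fintype G] (𝓕 : Set (Subgroup G)) (S : Finset G)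
      (hS : ∀ s ∈ S, s⁻¹ ∈ S) (h1 : (1 : G) ∉ S), PermLattice 𝓕 → Admissible 𝓕 (unif S) →
      ∀ eta del : ℝ, 0 < del → del < 1 → SseYes (cay S hS h1) S.card eta del →
      ∃ W ∈ 𝓕, W ≠ ⊤ ∧ expansion (cay S hS h1) S.card (carrier W) ≤
        eta * (Real.log W.index / Real.log (1 / del))) ∧
    (∀ (G : Type) [Group G] [Fintype G], (∀ N : Subgroup G, N.Normal) →
      (∀ g : G, orderOf g ≤ 4) → ∀ (S : Finset G) (hS : ∀ s ∈ S, s⁻¹ ∈ S) (h1 : (1 : G) ∉ S)
      (eta del : ℝ), 0 < del → del < 1 → SseYes (cay S hS h1) S.card eta del →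
      ∃ W : Subgroup G, W ≠ ⊤ ∧ expansion (cay S hS h1) S.card (carrier W) =
          ((S.filter fun s => s ∉ W).card : ℝ) / S.card ∧
        ((S.filter fun s => s ∉ W).card : ℝ) / S.card ≤
          eta * (Real.log W.index / Real.log (1 / del))) := by
  refine ⟨?_, ?_, ?_, ?_, ?_⟩
  · intro G _ _ 𝓕 μ h𝓕 h
    exact ⟨wexp_carrier_eq μ, lsize_carrier, part1 h𝓕 h, part2 h𝓕 h, part3 h𝓕 h⟩
  · intro G _ _
    exact ⟨permLattice_normal, fun hG μ hμ hcl hpp => admissible_gen hG μ (fun s _ => hμ s) hcl hpp⟩
  · intro G _ _ hG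
    constructor
    · intro h g
      by_contra hg
      push Not at hg
      obtain ⟨lam, hlam, A, hA, hlt⟩ := pair_not g hg
      obtain ⟨W, hW⟩ := h (pairWeight g) (pairWeight_nonneg g) (pairWeight_inv g) lam hlam
      have h1 := hW A hA
      have h2 := hlt W
      linarith
    · intro h4 μ hμ hs lam hlam
      obtain ⟨W, _, hW⟩ := part1 permLattice_normal
        (admissible_symm hG h4 μ (fun s _ => hμ s) hs) lam hlam
      exact ⟨W, hW⟩
  · intro G _ _ 𝓕 S hS h1 h𝓕 hadm eta del hdel hdel1 hyes
    exact sse h𝓕 S hS h1 hadm eta del hdel hdel1 hyes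
  · intro G _ _ hG h4 S hS h1 eta del hdel hdel1 hyes
    obtain ⟨W, _, hWt, hW⟩ := sse permLattice_normal S hS h1 (admissible_symm hG h4 (unif S)
      (fun s _ => by unfold unif; split_ifs <;> positivity)
      (fun s => by
        unfold unif
        have : s⁻¹ ∈ S ↔ s ∈ S := ⟨fun h => by simpa using hS _ h, hS s⟩
        simp only [this])) eta del hdel hdel1 hyes
    refine ⟨W, hWt, expansion_carrier S hS h1 W, ?_⟩
    rw [← expansion_carrier S hS h1 W]
    exact hW

end Pool.Agent.Results.MP_8d8c46_lc.PermutingSubgroups
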