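import Mathlib
import Pool.Agent.L7h51.SD.Main

set_option autoImplicit false
set_option linter.unusedSectionVars false
set_option maxHeartbeats 4000000

/-!
# The semidefinite program decides `SSE(η, δ)` for `δ > (10⁷ η)^(1/(13 η))`

The basic semidefinite program of `SSE(η, δ)` has a solution for all yes instances. We show that a
solution always gives a set with exactly `δ n` vertices whose expansion is at most
`1 - δ^{13 η} / 10⁷`. So there is no solution for the no instances of `SSE(η', δ)` if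
`10⁷ η' < δ^{13 η}`, and the program tells the yes from the no instances of `SSE(η, δ)` itself if
`10⁷ η < δ^{13 η}`.
-/

namespace Pool.Agent.Results.MP_8d8c46_lc.SemidefiniteProgram

open Finset Pool.Agent.L7h51.TR Pool.Agent.L7h51.SD
open scoped Classical

noncomputable section

/-- **Result.** Let `Γ` be a `d`-regular graph with `n` vertices, `d ≥ 1`, and `δ > 0`, `δ ≤ 1`,
`0 ≤ η < 1`. `SdpFeasible Γ d η δ` says that there are vectors `v_x` of some Euclidean space with
`∑ |v_x|² = δ n`, `|v_x| ≤ 1`, `⟨v_x, v_y⟩ ≥ 0`, `∑_y ⟨v_x, v_y⟩ ≤ δ n |v_x|²` for every `x` and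
`(1/d) ∑_x ∑_{y ~ x} ⟨v_x, v_y⟩ ≥ (1 - η) δ n`.

(1) If `Γ` is a yes instance of `SSE(η, δ)` then `SdpFeasible Γ d η δ`.

(2) If `SdpFeasible Γ d η δ`, `n ≥ 1`, then some nonempty set `B` of vertices has
`|B| ≤ 11200 δ^{1 - 8 η} n` and `Φ(B) ≤ 1 - δ^{8 η} / 400`.

(3) If `SdpFeasible Γ d η δ` and `δ n` is a positive integer then there is a set `S` with exactly
`δ n` vertices and `Φ(S) ≤ 1 - δ^{13 η} / 10⁷`.

(4) So if `Γ` is a no instance of `SSE(η', δ)` and `10⁷ η' < δ^{13 η}` then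
`¬ SdpFeasible Γ d η δ`.

(5) In particular, if `10⁷ η < δ^{13 η}`, then `SdpFeasible Γ d η δ` holds for all the yes instances
of `SSE(η, δ)` and for none of the no instances of `SSE(η, δ)`. -/
theorem result (V : Type) [Fintype V] (Γ : SimpleGraph V) (d : ℕ) (hd : 1 ≤ d)
    (hΓ : Γ.IsRegularOfDegree d) (eta del : ℝ) (heta : 0 ≤ eta) (heta1 : eta < 1)
    (hdel : 0 < del) (hdel1 : del ≤ 1) :
    (SseYes Γ d eta del → SdpFeasible Γ d eta del) ∧
    (Nonempty V → SdpFeasible Γ d eta del →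
      ∃ B : Finset V, B.Nonempty ∧
        (B.card : ℝ) ≤ 11200 * del ^ (1 - 8 * eta) * Fintype.card V ∧
        expansion Γ d B ≤ 1 - del ^ (8 * eta) / 400) ∧
    (∀ k : ℕ, 1 ≤ k → (k : ℝ) = del * Fintype.card V → SdpFeasible Γ d eta del →
      ∃ S : Finset V, S.card = k ∧ expansion Γ d S ≤ 1 - del ^ (13 * eta) / 10 ^ 7) ∧
    (∀ eta' : ℝ, 10 ^ 7 * eta' < del ^ (13 * eta) → SseNo Γ d eta' del →
      ¬ SdpFeasible Γ d eta del) ∧
    (10 ^ 7 * eta < del ^ (13 * eta) →
      (SseYes Γ d eta del → SdpFeasible Γ d eta del) ∧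
      (SseNo Γ d eta del → ¬ SdpFeasible Γ d eta del)) := by
  have h3 : ∀ k : ℕ, 1 ≤ k → (k : ℝ) = del * Fintype.card V → SdpFeasible Γ d eta del →
      ∃ S : Finset V, S.card = k ∧ expansion Γ d S ≤ 1 - del ^ (13 * eta) / 10 ^ 7 := by
    intro k hk hkd h
    refine exact_set Γ d hd hΓ eta del heta heta1 k hk hkd ?_ h
    have : (k : ℝ) ≤ Fintype.card V := by
      rw [hkd]
      have : (0 : ℝ) ≤ Fintype.card V := Nat.cast_nonneg _
      nlinarith
    exact_mod_cast this
  have h4 : ∀ eta' : ℝ, 10 ^ 7 * eta' < del ^ (13 * eta) → SseNo Γ d eta' del →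
      ¬ SdpFeasible Γ d eta del := by
    intro eta' hlt hno h
    obtain ⟨⟨k, hk, hkd⟩, hno⟩ := hno
    obtain ⟨S, hS, hSle⟩ := h3 k hk hkd h
    have hSne : S.Nonempty := by rw [← Finset.card_pos]; omega
    have h5 := hno S hSne (by rw [hS, hkd])
    have h6 : del ^ (13 * eta) / 10 ^ 7 ≤ eta' := by linarith
    rw [div_le_iff₀ (by norm_num)] at h6
    linarith
  exact ⟨yes_feasible Γ d hd hΓ eta del, fun hV h =>
    small_set Γ d hd hΓ hV eta del heta hdel hdel1 h, h3, h4,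
    fun hlt => ⟨yes_feasible Γ d hd hΓ eta del, h4 eta hlt⟩⟩

end

end Pool.Agent.Results.MP_8d8c46_lc.SemidefiniteProgram
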