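import Mathlib
import Pool.Agent.L7h51.TR.Pad

set_option autoImplicit false
set_option linter.unusedSectionVars false
set_option maxHeartbeats 4000000

/-!
# Small-set expansion and the number of large eigenvalues

A regular graph with `K` eigenvalues `≥ (1 - ε) d` has a nonempty set `B` of density at most
`4000 K^{8 ε - 1}` which retains at least the fraction `K^{-8 ε} / 200` of its degree. So the no
instances of small-set expansion have few large eigenvalues, also when `ε log K` is large (where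
the higher order Cheeger inequalities `Φ ≤ C √(ε log K)` say nothing). For vertex-transitive graphs
there is a converse, and counting the eigenvalues `≥ (1 - 2 η) d` tells the yes instances of
`SSE(η, δ)` from the no instances of `SSE(η, δ')` for `δ'` about `8000 δ (1 / δ)^{16 η}`.
-/

namespace Pool.Agent.Results.MP_8d8c46_lc.ThresholdRank

open Finset Pool.Agent.L7h51.TR
open scoped Classical

noncomputable section

/-- **Result.** Let `Γ` be a `d`-regular graph with `n` vertices, `d ≥ 1`; `eigCount Γ θ` is the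
number of eigenvalues `≥ θ` of its adjacency matrix, with multiplicity; let `ε, η ≥ 0`, `K ≥ 1`.

(1) If `eigCount Γ ((1 - ε) d) ≥ K` then there is a nonempty set `B` of vertices with
`|B| ≤ 4000 K^{8 ε - 1} n` and `Φ(B) ≤ 1 - K^{-8 ε} / 200`.

(2) If `Φ(S) ≥ 1 - η` for all nonempty sets `S` with `|S| ≤ δ n`, `4000 K^{8 ε - 1} ≤ δ` and
`200 η K^{8 ε} < 1`, then `eigCount Γ ((1 - ε) d) < K`.

Let moreover `Γ` be vertex-transitive.

(3) `n ≤ 2 |A| eigCount Γ ((1 - 2 η) d)` for every nonempty set `A` with `Φ(A) ≤ η`. In particular,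
if `Γ` is a yes instance of `SSE(η, δ)` then `2 δ eigCount Γ ((1 - 2 η) d) ≥ 1`.

(4) If `Γ` is a no instance of `SSE(η, δ)`, `δ ≤ 1`, then `Φ(B) ≥ 1 - 2 (η + δ)` for all nonempty
sets `B` with `|B| ≤ δ n`; and if `4000 K^{8 ε - 1} ≤ δ` and `400 (η + δ) K^{8 ε} < 1` then
`eigCount Γ ((1 - ε) d) < K`.

(5) So, if `2 δ (K - 1) < 1`, `4000 K^{16 η - 1} ≤ δ' ≤ 1` and `400 (η + δ') K^{16 η} < 1`, then
`eigCount Γ ((1 - 2 η) d) ≥ K` for the yes instances of `SSE(η, δ)` and
`eigCount Γ ((1 - 2 η) d) < K` for the no instances of `SSE(η, δ')`. -/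
theorem result (V : Type) [Fintype V] (Γ : SimpleGraph V) (d : ℕ) (hd : 1 ≤ d)
    (hΓ : Γ.IsRegularOfDegree d) :
    (∀ (K : ℕ) (ε : ℝ), 1 ≤ K → 0 ≤ ε → K ≤ eigCount Γ ((1 - ε) * d) →
      ∃ B : Finset V, B.Nonempty ∧
        (B.card : ℝ) ≤ 4000 * (K : ℝ) ^ (8 * ε) / K * Fintype.card V ∧
        expansion Γ d B ≤ 1 - (K : ℝ) ^ (-(8 * ε)) / 200) ∧
    (∀ (K : ℕ) (ε eta del : ℝ), 1 ≤ K → 0 ≤ ε →
      (∀ S : Finset V, S.Nonempty → (S.card : ℝ) ≤ del * Fintype.card V →
        1 - eta ≤ expansion Γ d S) →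
      4000 * (K : ℝ) ^ (8 * ε) / K ≤ del → 200 * eta * (K : ℝ) ^ (8 * ε) < 1 →
      eigCount Γ ((1 - ε) * d) < K) ∧
    (VertexTransitive Γ →
      (∀ eta : ℝ, 0 ≤ eta →
        (∀ A : Finset V, A.Nonempty → expansion Γ d A ≤ eta →
          (Fintype.card V : ℝ) ≤ 2 * A.card * eigCount Γ ((1 - 2 * eta) * d)) ∧
        (∀ del : ℝ, SseYes Γ d eta del → 1 ≤ 2 * del * eigCount Γ ((1 - 2 * eta) * d))) ∧
      (∀ eta del : ℝ, del ≤ 1 → SseNo Γ d eta del →
        (∀ B : Finset V, B.Nonempty → (B.card : ℝ) ≤ del * Fintype.card V →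
          1 - 2 * (eta + del) ≤ expansion Γ d B) ∧
        (∀ (K : ℕ) (ε : ℝ), 1 ≤ K → 0 ≤ ε → 4000 * (K : ℝ) ^ (8 * ε) / K ≤ del →
          400 * (eta + del) * (K : ℝ) ^ (8 * ε) < 1 → eigCount Γ ((1 - ε) * d) < K)) ∧
      (∀ (K : ℕ) (eta del del' : ℝ), 1 ≤ K → 0 ≤ eta → del' ≤ 1 → 2 * del * ((K : ℝ) - 1) < 1 →
        4000 * (K : ℝ) ^ (16 * eta) / K ≤ del' → 400 * (eta + del') * (K : ℝ) ^ (16 * eta) < 1 →
        (SseYes Γ d eta del → K ≤ eigCount Γ ((1 - 2 * eta) * d)) ∧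
        (SseNo Γ d eta del' → eigCount Γ ((1 - 2 * eta) * d) < K))) := by
  have gen : ∀ (K : ℕ) (ε x del : ℝ), 1 ≤ K → 0 ≤ ε →
      (∀ S : Finset V, S.Nonempty → (S.card : ℝ) ≤ del * Fintype.card V →
        1 - x ≤ expansion Γ d S) →
      4000 * (K : ℝ) ^ (8 * ε) / K ≤ del → 200 * x * (K : ℝ) ^ (8 * ε) < 1 →
      eigCount Γ ((1 - ε) * d) < K := by
    intro K ε x del hK hε hS h1 h2
    by_contra hcon
    push Not at hcon
    obtain ⟨B, hB, hB1, hB2⟩ := small_sets Γ d hd hΓ K hK ε hε hcon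
    have hK0 : (0 : ℝ) < K := by exact_mod_cast hK
    have h3 := hS B hB (hB1.trans (mul_le_mul_of_nonneg_right h1 (Nat.cast_nonneg _)))
    have h4 : (K : ℝ) ^ (-(8 * ε)) / 200 ≤ x := by linarith
    have h5 : 0 < (K : ℝ) ^ (8 * ε) := Real.rpow_pos_of_pos hK0 _
    rw [Real.rpow_neg hK0.le, div_le_iff₀ (by norm_num), inv_le_iff_one_le_mul₀ h5] at h4
    linarith
  have yes : VertexTransitive Γ → ∀ eta : ℝ, 0 ≤ eta → ∀ del : ℝ, SseYes Γ d eta del →
      1 ≤ 2 * del * eigCount Γ ((1 - 2 * eta) * d) := by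
    rintro hT eta heta del ⟨A, hA, hAc, hle⟩
    have h := many_eigenvalues Γ d hd hΓ hT eta heta A hA hle
    rw [hAc] at h
    have hn : 0 < Fintype.card V := by
      obtain ⟨a, _⟩ := hA
      exact Fintype.card_pos_iff.2 ⟨a⟩
    have hn0 : (0 : ℝ) < Fintype.card V := by exact_mod_cast hn
    have h1 : (1 : ℝ) * Fintype.card V ≤
        (2 * del * eigCount Γ ((1 - 2 * eta) * d)) * Fintype.card V := by linarith
    exact le_of_mul_le_mul_right h1 hn0
  have no : VertexTransitive Γ → ∀ eta del : ℝ, del ≤ 1 → SseNo Γ d eta del →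
      ∀ (K : ℕ) (ε : ℝ), 1 ≤ K → 0 ≤ ε → 4000 * (K : ℝ) ^ (8 * ε) / K ≤ del →
          400 * (eta + del) * (K : ℝ) ^ (8 * ε) < 1 → eigCount Γ ((1 - ε) * d) < K := by
    intro hT eta del hdel hno K ε hK hε h1 h2
    exact gen K ε (2 * (eta + del)) del hK hε
      (fun S hS hSc => no_small Γ d hd hΓ hT eta del hdel hno S hS hSc) h1 (by linarith)
  refine ⟨fun K ε hK hε h => small_sets Γ d hd hΓ K hK ε hε h,
    fun K ε eta del hK hε h => gen K ε eta del hK hε h, fun hT => ⟨fun eta heta =>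
      ⟨many_eigenvalues Γ d hd hΓ hT eta heta, yes hT eta heta⟩, fun eta del hdel hno =>
      ⟨no_small Γ d hd hΓ hT eta del hdel hno, no hT eta del hdel hno⟩, ?_⟩⟩
  intro K eta del del' hK heta hdel' h1 h2 h3
  constructor
  · intro hyes
    have h4 := yes hT eta heta del hyes
    by_contra hcon
    push Not at hcon
    have h5 : (eigCount Γ ((1 - 2 * eta) * d) : ℝ) ≤ (K : ℝ) - 1 := by
      have : eigCount Γ ((1 - 2 * eta) * d) + 1 ≤ K := hcon
      have h6 : ((eigCount Γ ((1 - 2 * eta) * d) + 1 : ℕ) : ℝ) ≤ K := by exact_mod_cast this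
      push_cast at h6
      linarith
    have hdel : 0 ≤ del := by
      obtain ⟨A, hA, hAc, _⟩ := hyes
      have hn0 : (0 : ℝ) ≤ Fintype.card V := Nat.cast_nonneg _
      by_contra hneg
      push Not at hneg
      have : (0 : ℝ) < A.card := by exact_mod_cast hA.card_pos
      nlinarith
    have h6 := mul_le_mul_of_nonneg_left h5 (show (0 : ℝ) ≤ 2 * del by linarith)
    linarith
  · intro hno
    have h16 : 8 * (2 * eta) = 16 * eta := by ring
    have h4 := no hT eta del' hdel' hno K (2 * eta) hK (by linarith) (by rw [h16]; exact h2)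
      (by rw [h16]; exact h3)
    exact h4

end

end Pool.Agent.Results.MP_8d8c46_lc.ThresholdRank
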